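import Mathlib

/-!
# The arithmetic of the bound `L`
-/

set_option autoImplicit false

namespace Pool.Agent.Q153.Noise

/-- `χ = ⌊(n + 2 (c - 2)) / (k + l)⌋ - (c - 2)` -/
def chi (n k l c : ℕ) : ℤ := ((n : ℤ) + 2 * ((c : ℤ) - 2)) / ((k : ℤ) + l) - ((c : ℤ) - 2)

/-- the residue of `- k χ - (k - 1) (c - 2)` modulo `gcd (n, k - l)` -/
def res (n k l c : ℕ) : ℤ :=
  (-(k : ℤ) * chi n k l c - ((k : ℤ) - 1) * ((c : ℤ) - 2)) % (Nat.gcd n (k - l) : ℤ)

/-- `L = ⌊(n + 2 (c - 2) - r) / (k + l)⌋ - (c - 2)` -/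
def bigL (n k l c : ℕ) : ℤ :=
  ((n : ℤ) + 2 * ((c : ℤ) - 2) - res n k l c) / ((k : ℤ) + l) - ((c : ℤ) - 2)

lemma gcd_facts {n k l : ℕ} (_hl : 1 ≤ l) (hlk : l < k) :
    (0 : ℤ) < (Nat.gcd n (k - l) : ℤ) ∧ (Nat.gcd n (k - l) : ℤ) ≤ (k : ℤ) - l ∧
      ((Nat.gcd n (k - l) : ℤ)) ∣ (n : ℤ) ∧ ((Nat.gcd n (k - l) : ℤ)) ∣ (k : ℤ) - l := by
  have h1 : 0 < k - l := by omega
  have h2 : 0 < Nat.gcd n (k - l) := Nat.gcd_pos_of_pos_right n h1
  have h3 : Nat.gcd n (k - l) ≤ k - l := Nat.gcd_le_right n h1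
  have h4 : ((k - l : ℕ) : ℤ) = (k : ℤ) - l := by push_cast [hlk.le]; ring
  refine ⟨by exact_mod_cast h2, ?_, ?_, ?_⟩
  · rw [← h4]; exact_mod_cast h3
  · exact_mod_cast Nat.gcd_dvd_left n (k - l)
  · rw [← h4]; exact_mod_cast Nat.gcd_dvd_right n (k - l)

/-- `a ≤ L` exactly when a multiple of `gcd (n, k - l)` lies in the right range. -/
lemma le_bigL_iff {n k l c : ℕ} (hl : 1 ≤ l) (hlk : l < k) (a : ℤ) :
    a ≤ bigL n k l c ↔ ∃ U : ℤ, (Nat.gcd n (k - l) : ℤ) ∣ U ∧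
      (l : ℤ) * a + ((l : ℤ) - 1) * ((c : ℤ) - 2) ≤ U ∧
      U ≤ (n : ℤ) - k * a - ((k : ℤ) - 1) * ((c : ℤ) - 2) := by
  obtain ⟨d0, d1, d2, d3⟩ := gcd_facts (n := n) hl hlk
  set d : ℤ := (Nat.gcd n (k - l) : ℤ) with hd
  have hl' : (1 : ℤ) ≤ l := by exact_mod_cast hl
  have hlk' : (l : ℤ) < k := by exact_mod_cast hlk
  have hkl : (0 : ℤ) < (k : ℤ) + l := by linarith
  obtain ⟨e, he⟩ : ∃ e : ℤ, e = (c : ℤ) - 2 := ⟨_, rfl⟩
  obtain ⟨x, hx⟩ : ∃ x : ℤ, x = chi n k l c := ⟨_, rfl⟩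
  obtain ⟨r, hr⟩ : ∃ r : ℤ, r = res n k l c := ⟨_, rfl⟩
  have hx1 : ((k : ℤ) + l) * (x + e) ≤ (n : ℤ) + 2 * e := by
    rw [hx, chi, ← he]
    have := Int.mul_ediv_self_le (x := (n : ℤ) + 2 * e) (k := (k : ℤ) + l) hkl.ne'
    linarith [this]
  have hx2 : (n : ℤ) + 2 * e < ((k : ℤ) + l) * (x + e + 1) := by
    rw [hx, chi, ← he]
    have := Int.lt_mul_ediv_self_add (x := (n : ℤ) + 2 * e) (k := (k : ℤ) + l) hkl
    linarith [this]
  have hr0 : 0 ≤ r := by rw [hr, res]; exact Int.emod_nonneg _ d0.ne'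
  have hr1 : r < d := by rw [hr, res]; exact Int.emod_lt_of_pos _ d0
  have hr2 : d ∣ (-(k : ℤ) * x - ((k : ℤ) - 1) * e) - r := by
    rw [hr, res, ← hx, ← he]
    exact Int.dvd_self_sub_emod
  have hL : ∀ b : ℤ, b ≤ bigL n k l c ↔ ((k : ℤ) + l) * (b + e) ≤ (n : ℤ) + 2 * e - r := by
    intro b
    unfold bigL
    rw [← he, ← hr, le_sub_iff_add_le, Int.le_ediv_iff_mul_le hkl, mul_comm]
  rw [hL, ← he]
  constructor
  · intro h
    have hax : a ≤ x := by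
      by_contra hcon
      push Not at hcon
      have : ((k : ℤ) + l) * (x + e + 1) ≤ ((k : ℤ) + l) * (a + e) :=
        mul_le_mul_of_nonneg_left (by linarith) hkl.le
      linarith
    refine ⟨(n : ℤ) - k * a - ((k : ℤ) - 1) * e - (-(k : ℤ) * a - ((k : ℤ) - 1) * e) % d, ?_, ?_, ?_⟩
    · have h1 : d ∣ (-(k : ℤ) * a - ((k : ℤ) - 1) * e) - (-(k : ℤ) * a - ((k : ℤ) - 1) * e) % d :=
        Int.dvd_self_sub_emod
      have h2 := dvd_add d2 h1
      have h3 : (n : ℤ) - k * a - ((k : ℤ) - 1) * e - (-(k : ℤ) * a - ((k : ℤ) - 1) * e) % d =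
          (n : ℤ) + ((-(k : ℤ) * a - ((k : ℤ) - 1) * e) - (-(k : ℤ) * a - ((k : ℤ) - 1) * e) % d) := by
        ring
      rw [h3]
      exact h2
    · rcases lt_or_eq_of_le hax with hlt | heq
      · have h1 : (-(k : ℤ) * a - ((k : ℤ) - 1) * e) % d < d := Int.emod_lt_of_pos _ d0
        have h2 : ((k : ℤ) + l) * (a + e + 1) ≤ ((k : ℤ) + l) * (x + e) :=
          mul_le_mul_of_nonneg_left (by linarith) hkl.le
        have h3 : d ≤ (k : ℤ) + l := by linarith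
        nlinarith
      · have h1 : (-(k : ℤ) * a - ((k : ℤ) - 1) * e) % d = r := by
          rw [heq, hr, res, ← hx, ← he]
        rw [h1]
        nlinarith
    · have h1 : 0 ≤ (-(k : ℤ) * a - ((k : ℤ) - 1) * e) % d := Int.emod_nonneg _ d0.ne'
      linarith
  · rintro ⟨U, hU, h1, h2⟩
    have hax : a ≤ x := by
      by_contra hcon
      push Not at hcon
      have h3 : ((k : ℤ) + l) * (x + e + 1) ≤ ((k : ℤ) + l) * (a + e) :=
        mul_le_mul_of_nonneg_left (by linarith) hkl.le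
      nlinarith
    rcases lt_or_eq_of_le hax with hlt | heq
    · have h3 : ((k : ℤ) + l) * (a + e + 1) ≤ ((k : ℤ) + l) * (x + e) :=
        mul_le_mul_of_nonneg_left (by linarith) hkl.le
      nlinarith
    · have h3 : d ∣ ((n : ℤ) - k * a - ((k : ℤ) - 1) * e - U) - r := by
        have h4 := dvd_sub (dvd_add d2 hr2) hU
        have h5 : (n : ℤ) - k * a - ((k : ℤ) - 1) * e - U - r =
            (n : ℤ) + (-(k : ℤ) * x - ((k : ℤ) - 1) * e - r) - U := by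
          rw [heq]
          ring
        rw [h5]
        exact h4
      have h4 : r ≤ (n : ℤ) - k * a - ((k : ℤ) - 1) * e - U := by
        by_contra hcon
        push Not at hcon
        obtain ⟨q, hq⟩ := h3
        have h5 : d * q < 0 := by linarith
        have h6 : q < 0 := by
          by_contra h7
          push Not at h7
          have := mul_nonneg d0.le h7
          linarith
        have h7 : d * q ≤ d * (-1) := mul_le_mul_of_nonneg_left (by omega) d0.le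
        linarith
      nlinarith

/-- the crude bound which excludes the sets that are not intervals -/
lemma le_bigL_of {n k l c : ℕ} (hl : 1 ≤ l) (hlk : l < k) (a : ℤ)
    (h : ((k : ℤ) + l) * a + ((k : ℤ) + l - 2) * ((c : ℤ) - 1) ≤ n) : a ≤ bigL n k l c := by
  obtain ⟨d0, d1, d2, d3⟩ := gcd_facts (n := n) hl hlk
  have hl' : (1 : ℤ) ≤ l := by exact_mod_cast hl
  have hlk' : (l : ℤ) < k := by exact_mod_cast hlk
  have hkl : (0 : ℤ) < (k : ℤ) + l := by linarith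
  have hr1 : res n k l c < (Nat.gcd n (k - l) : ℤ) := Int.emod_lt_of_pos _ d0
  unfold bigL
  rw [le_sub_iff_add_le, Int.le_ediv_iff_mul_le hkl]
  nlinarith

end Pool.Agent.Q153.Noise
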