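import Mathlib
import Pool.Agent.Helper549.Kneser

/-!
# Noisy `(k, l)`-sum-free sets: the structure of a largest set
-/

set_option autoImplicit false
set_option linter.unusedSectionVars false

namespace Pool.Agent.Q153.Noise

open Finset Pool.Agent.Helper549.Kneser
open scoped Pointwise

section general

variable {G : Type*} [AddCommGroup G] [Fintype G] [DecidableEq G]

/-- `m`-fold sumset -/
def nf (A : Finset G) : ℕ → Finset G
  | 0 => {0}
  | m + 1 => nf A m + A

lemma nf_zero (A : Finset G) : nf A 0 = {0} := rfl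
lemma nf_succ (A : Finset G) (m : ℕ) : nf A (m + 1) = nf A m + A := rfl

lemma nf_nonempty {A : Finset G} (hA : A.Nonempty) (m : ℕ) : (nf A m).Nonempty := by
  induction m with
  | zero => exact Finset.singleton_nonempty 0
  | succ m ih => exact ih.add hA

lemma nf_add (A B : Finset G) (m : ℕ) : nf (A + B) m = nf A m + nf B m := by
  induction m with
  | zero => simp [nf_zero]
  | succ m ih =>
    rw [nf_succ, nf_succ, nf_succ, ih, add_add_add_comm]

lemma nf_mono {A B : Finset G} (h : A ⊆ B) (m : ℕ) : nf A m ⊆ nf B m := by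
  induction m with
  | zero => exact Finset.Subset.refl _
  | succ m ih => exact Finset.add_subset_add ih h

lemma fs_add_fs (H : AddSubgroup G) : fs H + fs H = fs H := by
  ext x
  rw [Finset.mem_add, mem_fs]
  constructor
  · rintro ⟨a, ha, b, hb, rfl⟩
    exact H.add_mem (mem_fs.1 ha) (mem_fs.1 hb)
  · intro hx
    exact ⟨x, mem_fs.2 hx, 0, mem_fs.2 H.zero_mem, add_zero x⟩

lemma stab_add_le (X B : Finset G) : stab X ≤ stab (X + B) := by
  intro g hg
  apply mem_stab_of_forall
  intro x hx
  obtain ⟨a, ha, b, hb, rfl⟩ := Finset.mem_add.1 hx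
  rw [add_right_comm]
  exact Finset.add_mem_add (stab_add hg ha) hb

/-- iterated Kneser theorem for periodic sets -/
lemma iter (A B : Finset G) (hA : A.Nonempty) (hB : B.Nonempty) (H : AddSubgroup G)
    (hHA : H ≤ stab A) : ∀ m : ℕ, stab (A + nf B m) = H →
      A.card + m * B.card ≤ (A + nf B m).card + m * (fs H).card := by
  intro m
  induction m with
  | zero =>
    intro _
    simp [nf_zero]
  | succ m ih =>
    intro hst
    rw [nf_succ, ← add_assoc] at hst ⊢
    have h1 : stab (A + nf B m) = H := by
      apply le_antisymm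
      · calc stab (A + nf B m) ≤ stab (A + nf B m + B) := stab_add_le _ _
          _ = H := hst
      · exact hHA.trans (stab_add_le _ _)
    have h2 := ih h1
    have h3 := kneser (A + nf B m) B (hA.add (nf_nonempty hB m)) hB
    rw [hst] at h3
    nlinarith

/-- the noisy multiple sumset -/
def star (A C : Finset G) (m : ℕ) : Finset G := nf A m + nf C (m - 1)

/-- `A` is `C`-`(k, l)`-sum-free -/
def SF (k l : ℕ) (A C : Finset G) : Prop := Disjoint (star A C k) (star A C l)

lemma star_eq (A C : Finset G) {m : ℕ} (hm : 1 ≤ m) : star A C m = A + nf (A + C) (m - 1) := by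
  obtain ⟨j, rfl⟩ : ∃ j, m = j + 1 := ⟨m - 1, by omega⟩
  rw [Nat.add_sub_cancel, nf_add]
  unfold star
  rw [Nat.add_sub_cancel, nf_succ, add_comm (nf A j) A, add_assoc]

lemma star_add_fs (A C : Finset G) (H : AddSubgroup G) {m : ℕ} (hm : 1 ≤ m) :
    star (A + fs H) C m = star A C m + fs H := by
  have key : ∀ j, nf (A + fs H) (j + 1) = nf A (j + 1) + fs H := by
    intro j
    induction j with
    | zero =>
      rw [nf_succ, nf_succ, nf_zero, nf_zero, add_assoc]
    | succ j ih =>
      rw [nf_succ, ih, nf_succ A (j + 1), add_add_add_comm, fs_add_fs]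
  obtain ⟨j, rfl⟩ : ∃ j, m = j + 1 := ⟨m - 1, by omega⟩
  unfold star
  rw [key, Nat.add_sub_cancel, add_right_comm]

/-- A largest sum-free set is periodic with respect to the stabiliser of either multiple. -/
lemma enlarge {k l : ℕ} (hk : 1 ≤ k) (hl : 1 ≤ l) {A C : Finset G} (hA : SF k l A C) :
    SF k l (A + fs (stab (star A C k))) C := by
  unfold SF at *
  rw [star_add_fs _ _ _ hk, star_add_fs _ _ _ hl, add_fs_stab _ _ le_rfl]
  rw [Finset.disjoint_left] at *
  intro x hx hx'
  obtain ⟨y, hy, g, hg, rfl⟩ := Finset.mem_add.1 hx'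
  apply hA _ hy
  have := (mem_stab.1 (mem_fs.1 hg) y).2 hx
  exact this

lemma SF_comm {k l : ℕ} {A C : Finset G} : SF k l A C ↔ SF l k A C := disjoint_comm

lemma subset_add_fs (A : Finset G) (H : AddSubgroup G) : A ⊆ A + fs H := by
  intro x hx
  have := Finset.add_mem_add hx (mem_fs.2 H.zero_mem)
  rwa [add_zero] at this

lemma stab_le_of_eq {A : Finset G} {H : AddSubgroup G} (h : A + fs H = A) : H ≤ stab A := by
  intro g hg
  apply mem_stab_of_forall
  intro x hx
  rw [← h]
  exact Finset.add_mem_add hx (mem_fs.2 hg)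

/-- the three stabilisers agree for a largest sum-free set -/
lemma stabs {k l : ℕ} (hk : 1 ≤ k) (hl : 1 ≤ l) {A C : Finset G} (hA : SF k l A C)
    (hmax : ∀ A', SF k l A' C → A'.card ≤ A.card) :
    stab (star A C k) = stab A ∧ stab (star A C l) = stab A := by
  have h1 : A + fs (stab (star A C k)) = A := by
    symm
    apply Finset.eq_of_subset_of_card_le (subset_add_fs _ _)
    exact hmax _ (enlarge hk hl hA)
  have h2 : A + fs (stab (star A C l)) = A := by
    symm
    apply Finset.eq_of_subset_of_card_le (subset_add_fs _ _)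
    exact hmax _ (SF_comm.1 (enlarge hl hk (SF_comm.1 hA)))
  constructor
  · apply le_antisymm (stab_le_of_eq h1)
    rw [star_eq _ _ hk]
    exact stab_add_le _ _
  · apply le_antisymm (stab_le_of_eq h2)
    rw [star_eq _ _ hl]
    exact stab_add_le _ _

/-- Kneser's inequality for a largest sum-free set -/
lemma main_ineq {k l : ℕ} (hk : 1 ≤ k) (hl : 1 ≤ l) {A C : Finset G} (hA : SF k l A C)
    (hmax : ∀ A', SF k l A' C → A'.card ≤ A.card) (hne : A.Nonempty) (hC : C.Nonempty) :
    2 * A.card + (k - 1) * (A + C).card + (l - 1) * (A + C).card ≤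
      Fintype.card G + (k - 1) * (fs (stab A)).card + (l - 1) * (fs (stab A)).card := by
  obtain ⟨h1, h2⟩ := stabs hk hl hA hmax
  have h3 : stab (A + nf (A + C) (k - 1)) = stab A := by rw [← star_eq _ _ hk]; exact h1
  have h4 : stab (A + nf (A + C) (l - 1)) = stab A := by rw [← star_eq _ _ hl]; exact h2
  have h5 := iter A (A + C) hne (hne.add hC) (stab A) le_rfl (k - 1) h3
  have h6 := iter A (A + C) hne (hne.add hC) (stab A) le_rfl (l - 1) h4
  have h7 : (star A C k).card + (star A C l).card ≤ Fintype.card G := by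
    rw [← Finset.card_union_of_disjoint hA]
    exact Finset.card_le_univ _
  rw [star_eq _ _ hk, star_eq _ _ hl] at h7
  linarith

end general

end Pool.Agent.Q153.Noise
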