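import Mathlib
import Pool.Agent.Q153.Noise.Core
import Pool.Agent.Q153.Noise.Arith

/-!
# Noisy sum-free sets in cyclic groups with interval noise
-/

set_option autoImplicit false
set_option linter.unusedSectionVars false

namespace Pool.Agent.Q153.Noise

open Finset Pool.Agent.Helper549.Kneser
open scoped Pointwise

variable {n : ℕ} [NeZero n]

/-- the interval `{s, s + 1, ..., s + t - 1}` -/
def seg (s : ZMod n) (t : ℕ) : Finset (ZMod n) := (range t).image (fun j : ℕ => s + (j : ZMod n))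

lemma mem_seg {s x : ZMod n} {t : ℕ} : x ∈ seg s t ↔ ∃ j < t, s + (j : ZMod n) = x := by
  unfold seg
  simp [Finset.mem_image]

lemma seg_nonempty {s : ZMod n} {t : ℕ} (ht : 1 ≤ t) : (seg s t).Nonempty :=
  ⟨s + ((0 : ℕ) : ZMod n), mem_seg.2 ⟨0, ht, rfl⟩⟩

lemma card_seg_le (s : ZMod n) (t : ℕ) : (seg s t).card ≤ t := by
  unfold seg
  exact Finset.card_image_le.trans (by simp)

lemma card_seg {s : ZMod n} {t : ℕ} (ht : t ≤ n) : (seg s t).card = t := by
  unfold seg
  rw [Finset.card_image_of_injOn, Finset.card_range]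
  intro a ha b hb hab
  have ha' : a < t := by simpa using ha
  have hb' : b < t := by simpa using hb
  have h1 : ((a : ℕ) : ZMod n) = (b : ZMod n) := add_left_cancel hab
  rw [ZMod.natCast_eq_natCast_iff] at h1
  exact Nat.ModEq.eq_of_lt_of_lt h1 (by omega) (by omega)

lemma seg_add (s s' : ZMod n) {t t' : ℕ} (ht : 1 ≤ t) (ht' : 1 ≤ t') :
    seg s t + seg s' t' = seg (s + s') (t + t' - 1) := by
  ext x
  rw [Finset.mem_add, mem_seg]
  constructor
  · rintro ⟨a, ha, b, hb, rfl⟩
    obtain ⟨i, hi, rfl⟩ := mem_seg.1 ha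
    obtain ⟨j, hj, rfl⟩ := mem_seg.1 hb
    refine ⟨i + j, by omega, ?_⟩
    push_cast
    ring
  · rintro ⟨i, hi, rfl⟩
    refine ⟨s + ((min i (t - 1) : ℕ) : ZMod n), mem_seg.2 ⟨_, by omega, rfl⟩,
      s' + ((i - min i (t - 1) : ℕ) : ZMod n), mem_seg.2 ⟨_, by omega, rfl⟩, ?_⟩
    have h1 : ((min i (t - 1) : ℕ) : ZMod n) + ((i - min i (t - 1) : ℕ) : ZMod n) = (i : ZMod n) := by
      rw [← Nat.cast_add]
      congr 1
      omega
    linear_combination h1

lemma nf_seg (s : ZMod n) {t : ℕ} (ht : 1 ≤ t) (m : ℕ) :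
    nf (seg s t) m = seg ((m : ZMod n) * s) (m * (t - 1) + 1) := by
  induction m with
  | zero =>
    rw [nf_zero]
    ext x
    rw [mem_seg]
    constructor
    · intro hx
      rw [Finset.mem_singleton] at hx
      exact ⟨0, by omega, by rw [hx]; simp⟩
    · rintro ⟨j, hj, rfl⟩
      have : j = 0 := by omega
      subst this
      simp
  | succ m ih =>
    rw [nf_succ, ih, seg_add _ _ (by omega) ht]
    have h1 : (m : ZMod n) * s + s = ((m + 1 : ℕ) : ZMod n) * s := by push_cast; ring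
    have h2 : m * (t - 1) + 1 + t - 1 = (m + 1) * (t - 1) + 1 := by
      rw [add_mul]
      omega
    rw [h1, h2]

/-- the multiples of an interval -/
lemma star_seg (s : ZMod n) {t c m : ℕ} (ht : 1 ≤ t) (hc : 1 ≤ c) :
    star (seg s t) (seg 0 c) m = seg ((m : ZMod n) * s) (m * (t - 1) + (m - 1) * (c - 1) + 1) := by
  unfold star
  rw [nf_seg _ ht, nf_seg _ hc, seg_add _ _ (by omega) (by omega), mul_zero, add_zero]
  congr 1
  generalize m * (t - 1) = x
  generalize (m - 1) * (c - 1) = y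
  omega

lemma len_eq {t c m : ℕ} (ht : 1 ≤ t) (hc : 2 ≤ c) (hm : 1 ≤ m) :
    ((m * (t - 1) + (m - 1) * (c - 1) + 1 : ℕ) : ℤ) = (m : ℤ) * t + ((m : ℤ) - 1) * ((c : ℤ) - 2) := by
  have h1 : ((t - 1 : ℕ) : ℤ) = (t : ℤ) - 1 := by push_cast [ht]; ring
  have h2 : ((m - 1 : ℕ) : ℤ) = (m : ℤ) - 1 := by push_cast [hm]; ring
  have h3 : ((c - 1 : ℕ) : ℤ) = (c : ℤ) - 1 := by
    have : 1 ≤ c := by omega
    push_cast [this]
    ring
  push_cast
  rw [h1, h2, h3]
  ring

/-! ### Lower bound -/

lemma exists_interval {k l c : ℕ} (hl : 1 ≤ l) (hlk : l < k) (hc : 2 ≤ c) (a : ℕ) (ha : 1 ≤ a)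
    (haL : (a : ℤ) ≤ bigL n k l c) : ∃ s : ZMod n, SF k l (seg s a) (seg 0 c) ∧ a ≤ n := by
  obtain ⟨U, hU, h1, h2⟩ := (le_bigL_iff hl hlk (a : ℤ)).1 haL
  -- solve (k - l) s = U
  have hbez : ∃ s : ZMod n, ((k : ZMod n) - (l : ZMod n)) * s = (U : ZMod n) := by
    obtain ⟨q, hq⟩ := hU
    have h3 := Nat.gcd_eq_gcd_ab n (k - l)
    refine ⟨((Nat.gcdB n (k - l) * q : ℤ) : ZMod n), ?_⟩
    have h4 : ((k : ZMod n) - (l : ZMod n)) = (((k - l : ℕ) : ℤ) : ZMod n) := by
      push_cast [hlk.le]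
      ring
    rw [h4, ← Int.cast_mul, ZMod.intCast_eq_intCast_iff_dvd_sub]
    refine ⟨Nat.gcdA n (k - l) * q, ?_⟩
    rw [hq, h3]
    ring
  obtain ⟨s, hs⟩ := hbez
  have hlk' : (l : ℤ) < k := by exact_mod_cast hlk
  have hl' : (1 : ℤ) ≤ l := by exact_mod_cast hl
  have hc' : (2 : ℤ) ≤ c := by exact_mod_cast hc
  have ha' : (1 : ℤ) ≤ a := by exact_mod_cast ha
  have hPk := len_eq (t := a) (m := k) ha hc (by omega)
  have hPl := len_eq (t := a) (m := l) ha hc hl
  refine ⟨s, ?_, ?_⟩
  · unfold SF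
    rw [star_seg _ ha (by omega), star_seg _ ha (by omega), Finset.disjoint_left]
    intro x hx hx'
    obtain ⟨i, hi, h5⟩ := mem_seg.1 hx
    obtain ⟨j, hj, h6⟩ := mem_seg.1 hx'
    have h7 : (((U - j + i : ℤ)) : ZMod n) = 0 := by
      push_cast
      rw [← hs]
      linear_combination h5 - h6
    rw [ZMod.intCast_zmod_eq_zero_iff_dvd] at h7
    have hi' : (i : ℤ) < (k : ℤ) * a + ((k : ℤ) - 1) * ((c : ℤ) - 2) := by
      rw [← hPk]; exact_mod_cast hi
    have hj' : (j : ℤ) < (l : ℤ) * a + ((l : ℤ) - 1) * ((c : ℤ) - 2) := by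
      rw [← hPl]; exact_mod_cast hj
    obtain ⟨q, hq⟩ := h7
    have hi0 : (0 : ℤ) ≤ i := by positivity
    have hj0 : (0 : ℤ) ≤ j := by positivity
    have h8 : 0 < (n : ℤ) * q := by linarith
    have h9 : (n : ℤ) * q < n := by linarith
    have hn : (0 : ℤ) < n := by exact_mod_cast Nat.pos_of_ne_zero (NeZero.ne n)
    have h10 : 0 < q := by
      by_contra h
      push Not at h
      have := mul_le_mul_of_nonneg_left h hn.le
      linarith
    have h11 : (n : ℤ) * 1 ≤ n * q := mul_le_mul_of_nonneg_left (by omega) hn.le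
    linarith
  · have h3 : (a : ℤ) ≤ n := by
      have h4 : 0 ≤ ((l : ℤ) - 1) * ((c : ℤ) - 2) := mul_nonneg (by linarith) (by linarith)
      have h5 : 0 ≤ ((k : ℤ) - 1) * ((c : ℤ) - 2) := mul_nonneg (by linarith) (by linarith)
      nlinarith
    exact_mod_cast h3

/-! ### Upper bound -/

/-- adding `1` to a proper periodic set -/
lemma exists_boundary {X : Finset (ZMod n)} (hne : X.Nonempty) (hX : X ≠ univ) :
    ∃ e, e - 1 ∈ X ∧ e ∉ X := by
  by_contra hcon
  push Not at hcon
  apply hX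
  obtain ⟨x, hx⟩ := hne
  have h1 : ∀ j : ℕ, x + (j : ZMod n) ∈ X := by
    intro j
    induction j with
    | zero => simpa using hx
    | succ j ih =>
      apply hcon
      have : x + ((j + 1 : ℕ) : ZMod n) - 1 = x + (j : ZMod n) := by push_cast; ring
      rw [this]
      exact ih
  ext y
  simp only [Finset.mem_univ, iff_true]
  have h2 := h1 (y - x).val
  rw [ZMod.natCast_zmod_val] at h2
  simpa using h2

lemma seg_succ (s : ZMod n) (t : ℕ) : seg s (t + 1) = seg s t ∪ {s + (t : ZMod n)} := by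
  ext x
  rw [Finset.mem_union, mem_seg, mem_seg, Finset.mem_singleton]
  constructor
  · rintro ⟨j, hj, rfl⟩
    rcases Nat.lt_succ_iff_lt_or_eq.1 hj with h | h
    · exact Or.inl ⟨j, h, rfl⟩
    · subst h
      exact Or.inr rfl
  · rintro (⟨j, hj, rfl⟩ | rfl)
    · exact ⟨j, by omega, rfl⟩
    · exact ⟨t, by omega, rfl⟩

/-- one more element of noise adds at least `|H|` elements -/
lemma growth (A : Finset (ZMod n)) (H : AddSubgroup (ZMod n)) (hH : H ≤ stab A) (hne : A.Nonempty)
    (j : ℕ) (hj : 1 ≤ j) (hX : A + seg 0 j ≠ univ) :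
    (A + seg 0 j).card + (fs H).card ≤ (A + seg 0 (j + 1)).card := by
  set X := A + seg 0 j with hXdef
  have hXH : H ≤ stab X := hH.trans (stab_add_le _ _)
  obtain ⟨e, he1, he2⟩ := exists_boundary (X := X) (hne.add (seg_nonempty hj)) hX
  have hsub : X ∪ (fs H).image (fun g => e + g) ⊆ A + seg 0 (j + 1) := by
    apply Finset.union_subset
    · apply Finset.add_subset_add (Finset.Subset.refl _)
      rw [seg_succ]
      exact Finset.subset_union_left
    · intro y hy
      obtain ⟨g, hg, rfl⟩ := Finset.mem_image.1 hy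
      have h1 : e - 1 + g ∈ X := stab_add (hXH (mem_fs.1 hg)) he1
      obtain ⟨a, ha, b, hb, hab⟩ := Finset.mem_add.1 h1
      obtain ⟨i, hi, rfl⟩ := mem_seg.1 hb
      refine Finset.mem_add.2 ⟨a, ha, 0 + ((i + 1 : ℕ) : ZMod n), mem_seg.2 ⟨i + 1, by omega, rfl⟩, ?_⟩
      push_cast
      linear_combination hab
  have hdisj : Disjoint X ((fs H).image (fun g => e + g)) := by
    rw [Finset.disjoint_right]
    intro y hy hyX
    obtain ⟨g, hg, rfl⟩ := Finset.mem_image.1 hy
    exact he2 ((mem_stab.1 (hXH (mem_fs.1 hg)) e).2 hyX)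
  have h2 := Finset.card_le_card hsub
  rw [Finset.card_union_of_disjoint hdisj,
    Finset.card_image_of_injective _ (add_right_injective e)] at h2
  exact h2

lemma seg_one (s : ZMod n) : seg s 1 = {s} := by
  ext x
  rw [mem_seg, Finset.mem_singleton]
  constructor
  · rintro ⟨j, hj, rfl⟩
    have : j = 0 := by omega
    subst this
    simp
  · rintro rfl
    exact ⟨0, by omega, by simp⟩

lemma seg_mono (s : ZMod n) {t t' : ℕ} (h : t ≤ t') : seg s t ⊆ seg s t' := by
  intro x hx
  obtain ⟨j, hj, rfl⟩ := mem_seg.1 hx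
  exact mem_seg.2 ⟨j, by omega, rfl⟩

/-- growth from the second step on -/
lemma growth_many (A : Finset (ZMod n)) (H : AddSubgroup (ZMod n)) (hH : H ≤ stab A)
    (hne : A.Nonempty) (c : ℕ) (i : ℕ) (hi : 1 ≤ i) (hic : i ≤ c) (hX : A + seg 0 c ≠ univ) :
    (A + seg 0 i).card + (c - i) * (fs H).card ≤ (A + seg 0 c).card := by
  induction c with
  | zero => omega
  | succ c ih =>
    rcases Nat.lt_or_ge c i with h | h
    · have : i = c + 1 := by omega
      subst this
      simp
    · have hX' : A + seg 0 c ≠ univ := by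
        intro h'
        apply hX
        apply Finset.eq_univ_of_forall
        intro x
        have : x ∈ A + seg 0 c := by rw [h']; exact Finset.mem_univ x
        exact Finset.add_subset_add (Finset.Subset.refl _) (seg_mono 0 (by omega)) this
      have h1 := ih h hX'
      have h2 := growth A H hH hne c (by omega) hX'
      have h3 : c + 1 - i = (c - i) + 1 := by omega
      rw [h3, add_mul]
      omega

/-- if the boundary of a periodic set is a single coset, the set is an interval modulo `H` -/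
lemma interval_of_boundary (A : Finset (ZMod n)) (H : AddSubgroup (ZMod n)) (hH : H ≤ stab A)
    (e : ZMod n) (he1 : e - 1 ∈ A) (he2 : e ∉ A)
    (hb : ∀ x, x - 1 ∈ A → x ∉ A → x - e ∈ H) :
    ∃ (s : ZMod n) (t : ℕ), 1 ≤ t ∧ A = seg s t + fs H := by
  classical
  have hex : ∃ i : ℕ, 1 ≤ i ∧ e - (i : ZMod n) ∉ A := by
    refine ⟨n, Nat.one_le_iff_ne_zero.2 (NeZero.ne n), ?_⟩
    simpa using he2
  obtain ⟨hf1, hf2⟩ := Nat.find_spec hex
  set f := Nat.find hex with hf
  have hmin : ∀ i, 1 ≤ i → i < f → e - (i : ZMod n) ∈ A := by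
    intro i hi hif
    have := Nat.find_min hex hif
    push Not at this
    exact this hi
  have hf3 : 2 ≤ f := by
    by_contra hcon
    have : f = 1 := by omega
    rw [this] at hf2
    apply hf2
    simpa using he1
  refine ⟨e - ((f - 1 : ℕ) : ZMod n), f - 1, by omega, ?_⟩
  ext x
  rw [Finset.mem_add]
  constructor
  · intro hx
    -- follow the run of `x`
    have hex2 : ∃ j : ℕ, x + ((j + 1 : ℕ) : ZMod n) ∉ A := by
      by_contra hcon
      push Not at hcon
      apply he2
      have h1 := hcon ((e - x - 1).val)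
      rw [Nat.cast_add, ZMod.natCast_zmod_val] at h1
      have h2 : x + (e - x - 1 + ((1 : ℕ) : ZMod n)) = e := by push_cast; ring
      rwa [h2] at h1
    have hj1 := Nat.find_spec hex2
    set j := Nat.find hex2 with hj
    have hjmin : ∀ i ≤ j, x + (i : ZMod n) ∈ A := by
      intro i hi
      rcases Nat.eq_zero_or_pos i with h0 | h0
      · subst h0
        simpa using hx
      · obtain ⟨i', rfl⟩ : ∃ i', i = i' + 1 := ⟨i - 1, by omega⟩
        have := Nat.find_min hex2 (show i' < Nat.find hex2 by omega)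
        push Not at this
        exact this
    have h1 := hb (x + ((j + 1 : ℕ) : ZMod n)) (by
      have := hjmin j le_rfl
      have e1 : x + ((j + 1 : ℕ) : ZMod n) - 1 = x + (j : ZMod n) := by push_cast; ring
      rw [e1]
      exact this) hj1
    -- hence `j + 1 < f`
    have h2 : j + 1 < f := by
      by_contra hcon
      push Not at hcon
      apply hf2
      have h3 := hjmin (j + 1 - f) (by omega)
      have h4 := (mem_stab.1 (hH (H.neg_mem h1)) _).1 h3
      have h5 : x + ((j + 1 - f : ℕ) : ZMod n) + -(x + ((j + 1 : ℕ) : ZMod n) - e) = e - (f : ZMod n) := by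
        rw [Nat.cast_sub hcon]
        ring
      rwa [h5] at h4
    refine ⟨e - ((f - 1 : ℕ) : ZMod n) + ((f - 1 - (j + 1) : ℕ) : ZMod n),
      mem_seg.2 ⟨_, by omega, rfl⟩, x + ((j + 1 : ℕ) : ZMod n) - e, mem_fs.2 h1, ?_⟩
    rw [Nat.cast_sub (show j + 1 ≤ f - 1 by omega)]
    ring
  · rintro ⟨y, hy, g, hg, rfl⟩
    obtain ⟨i, hi, rfl⟩ := mem_seg.1 hy
    apply stab_add (hH (mem_fs.1 hg))
    have h1 := hmin (f - 1 - i) (by omega) (by omega)
    rw [Nat.cast_sub (show i ≤ f - 1 by omega)] at h1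
    have h2 : e - (((f - 1 : ℕ) : ZMod n) - (i : ZMod n)) = e - ((f - 1 : ℕ) : ZMod n) + (i : ZMod n) := by
      ring
    rwa [h2] at h1

/-- If the first step adds less than `2 |H|` elements, the set is an interval modulo `H`. -/
lemma interval_of_small (A : Finset (ZMod n)) (H : AddSubgroup (ZMod n)) (hH : H ≤ stab A)
    (hne : A.Nonempty) (hA : A ≠ univ)
    (hsmall : (A + seg 0 2).card < A.card + 2 * (fs H).card) :
    ∃ (s : ZMod n) (t : ℕ), 1 ≤ t ∧ A = seg s t + fs H := by
  obtain ⟨e, he1, he2⟩ := exists_boundary hne hA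
  apply interval_of_boundary A H hH e he1 he2
  intro x hx1 hx2
  by_contra hcon
  -- three disjoint parts
  have hmem : ∀ y, y - 1 ∈ A → y ∉ A → ∀ g ∈ H, y + g ∈ A + seg 0 2 ∧ y + g ∉ A := by
    intro y hy1 hy2 g hg
    constructor
    · refine Finset.mem_add.2 ⟨y - 1 + g, stab_add (hH hg) hy1, 0 + ((1 : ℕ) : ZMod n),
        mem_seg.2 ⟨1, by omega, rfl⟩, ?_⟩
      push_cast
      ring
    · intro h
      exact hy2 ((mem_stab.1 (hH hg) y).2 h)
  have hsub : A ∪ ((fs H).image (fun g => e + g) ∪ (fs H).image (fun g => x + g)) ⊆ A + seg 0 2 := by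
    apply Finset.union_subset
    · intro a ha
      refine Finset.mem_add.2 ⟨a, ha, 0 + ((0 : ℕ) : ZMod n), mem_seg.2 ⟨0, by omega, rfl⟩, ?_⟩
      simp
    · apply Finset.union_subset
      · intro y hy
        obtain ⟨g, hg, rfl⟩ := Finset.mem_image.1 hy
        exact (hmem e he1 he2 g (mem_fs.1 hg)).1
      · intro y hy
        obtain ⟨g, hg, rfl⟩ := Finset.mem_image.1 hy
        exact (hmem x hx1 hx2 g (mem_fs.1 hg)).1
  have hd1 : Disjoint ((fs H).image (fun g => e + g)) ((fs H).image (fun g => x + g)) := by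
    rw [Finset.disjoint_left]
    intro y hy hy'
    obtain ⟨g, hg, rfl⟩ := Finset.mem_image.1 hy
    obtain ⟨g', hg', h⟩ := Finset.mem_image.1 hy'
    apply hcon
    have h1 := H.sub_mem (mem_fs.1 hg) (mem_fs.1 hg')
    have h2 : g - g' = x - e := by
      have h3 : x + g' = e + g := h
      linear_combination -h3
    rwa [h2] at h1
  have hd2 : Disjoint A ((fs H).image (fun g => e + g) ∪ (fs H).image (fun g => x + g)) := by
    rw [Finset.disjoint_union_right]
    constructor
    · rw [Finset.disjoint_right]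
      intro y hy
      obtain ⟨g, hg, rfl⟩ := Finset.mem_image.1 hy
      exact (hmem e he1 he2 g (mem_fs.1 hg)).2
    · rw [Finset.disjoint_right]
      intro y hy
      obtain ⟨g, hg, rfl⟩ := Finset.mem_image.1 hy
      exact (hmem x hx1 hx2 g (mem_fs.1 hg)).2
  have h2 := Finset.card_le_card hsub
  rw [Finset.card_union_of_disjoint hd2, Finset.card_union_of_disjoint hd1,
    Finset.card_image_of_injective _ (add_right_injective e),
    Finset.card_image_of_injective _ (add_right_injective x)] at h2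
  omega

end Pool.Agent.Q153.Noise
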