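import Mathlib
import Pool.Agent.Q153.Noise.Cyc

/-!
# The upper bound for noisy sum-free sets
-/

set_option autoImplicit false
set_option linter.unusedSectionVars false

namespace Pool.Agent.Q153.Noise

open Finset Pool.Agent.Helper549.Kneser
open scoped Pointwise

variable {n : ℕ} [NeZero n]

/-- a subgroup of `ZMod n` of order `h` consists of the multiples of `n / h` -/
lemma mem_subgroup_iff (H : AddSubgroup (ZMod n)) (N : ℕ) (hN : n = (fs H).card * N) (x : ZMod n) :
    x ∈ H ↔ N ∣ x.val := by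
  classical
  have hh : 0 < (fs H).card := fs_card_pos H
  have hn : 0 < n := Nat.pos_of_ne_zero (NeZero.ne n)
  have hN0 : 0 < N := by
    rcases Nat.eq_zero_or_pos N with h | h
    · rw [h, mul_zero] at hN; omega
    · exact h
  have hcard : Nat.card H = (fs H).card := by
    rw [Nat.card_eq_fintype_card, Fintype.card_subtype]
    unfold fs
    congr 1
  -- one direction
  have h1 : ∀ x ∈ H, N ∣ x.val := by
    intro x hx
    have h2 : (fs H).card • x = 0 := by
      have h3 : (Nat.card H) • (⟨x, hx⟩ : H) = 0 := card_nsmul_eq_zero'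
      have h4 := congrArg (fun y : H => (y : ZMod n)) h3
      simp only [AddSubgroup.coe_nsmul, AddSubgroup.coe_zero] at h4
      rwa [hcard] at h4
    have h5 : (((fs H).card * x.val : ℕ) : ZMod n) = 0 := by
      push_cast
      rw [ZMod.natCast_zmod_val, ← nsmul_eq_mul]
      exact h2
    rw [ZMod.natCast_eq_zero_iff] at h5
    nth_rw 1 [hN] at h5
    exact (Nat.mul_dvd_mul_iff_left hh).1 h5
  -- counting
  have h2 : fs H ⊆ (range (fs H).card).image (fun i : ℕ => ((i * N : ℕ) : ZMod n)) := by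
    intro y hy
    obtain ⟨i, hi⟩ := h1 y (mem_fs.1 hy)
    rw [Finset.mem_image]
    refine ⟨i, ?_, ?_⟩
    · rw [Finset.mem_range]
      have h3 := (ZMod.val_lt y).trans_eq hN
      rw [hi, mul_comm N i] at h3
      exact lt_of_mul_lt_mul_right h3 (Nat.zero_le N)
    · rw [mul_comm, ← hi, ZMod.natCast_zmod_val]
  have h3 : fs H = (range (fs H).card).image (fun i : ℕ => ((i * N : ℕ) : ZMod n)) := by
    apply Finset.eq_of_subset_of_card_le h2
    exact Finset.card_image_le.trans (by simp)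
  constructor
  · exact h1 x
  · rintro ⟨i, hi⟩
    rw [← mem_fs, h3, Finset.mem_image]
    refine ⟨i, ?_, ?_⟩
    · rw [Finset.mem_range]
      have h4 := (ZMod.val_lt x).trans_eq hN
      rw [hi, mul_comm N i] at h4
      exact lt_of_mul_lt_mul_right h4 (Nat.zero_le N)
    · rw [mul_comm, ← hi, ZMod.natCast_zmod_val]

lemma card_mul_index (H : AddSubgroup (ZMod n)) : ∃ N, n = (fs H).card * N := by
  classical
  have hcard : Nat.card H = (fs H).card := by
    rw [Nat.card_eq_fintype_card, Fintype.card_subtype]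
    unfold fs
    congr 1
  have h1 := AddSubgroup.card_addSubgroup_dvd_card H
  rw [hcard, Nat.card_eq_fintype_card, ZMod.card] at h1
  exact h1

/-- intervals modulo `H` -/
lemma periodic_interval_bound {k l c : ℕ} (hl : 1 ≤ l) (hlk : l < k) (hc : 2 ≤ c)
    (H : AddSubgroup (ZMod n)) (s : ZMod n) (t : ℕ) (ht : 1 ≤ t)
    (hSF : SF k l (seg s t + fs H) (seg 0 c)) :
    ((seg s t + fs H).card : ℤ) ≤ bigL n k l c := by
  obtain ⟨N, hN⟩ := card_mul_index H
  have hn : 0 < n := Nat.pos_of_ne_zero (NeZero.ne n)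
  have hh : 0 < (fs H).card := fs_card_pos H
  have hN0 : 0 < N := by
    rcases Nat.eq_zero_or_pos N with h | h
    · rw [h, mul_zero] at hN; omega
    · exact h
  have hcard : (seg s t + fs H).card ≤ t * (fs H).card := by
    refine (Finset.card_add_le).trans ?_
    exact Nat.mul_le_mul_right _ (card_seg_le s t)
  set h := (fs H).card with hhdef
  -- the lengths
  have hPk := len_eq (t := t) (m := k) ht hc (by omega)
  have hPl := len_eq (t := t) (m := l) ht hc hl
  set Pk := k * (t - 1) + (k - 1) * (c - 1) + 1 with hPkdef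
  set Pl := l * (t - 1) + (l - 1) * (c - 1) + 1 with hPldef
  unfold SF at hSF
  rw [star_add_fs _ _ _ (by omega), star_add_fs _ _ _ hl, star_seg _ ht (by omega),
    star_seg _ ht (by omega), ← hPkdef, ← hPldef, Finset.disjoint_left] at hSF
  -- the difference of the starting points
  set v := (((k : ZMod n) - (l : ZMod n)) * s).val with hv
  have hv' : (v : ZMod n) = ((k : ZMod n) - (l : ZMod n)) * s := ZMod.natCast_zmod_val _
  set u := v % N with hu
  have huN : u < N := Nat.mod_lt _ hN0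
  have hvu : v = N * (v / N) + u := (Nat.div_add_mod v N).symm
  have hmemH : ∀ q : ℕ, ((N * q : ℕ) : ZMod n) ∈ H := by
    intro q
    rw [mem_subgroup_iff H N hN, ZMod.val_natCast]
    have h1 : N ∣ n := ⟨h, by rw [mul_comm]; exact hN⟩
    exact (Nat.dvd_mod_iff h1).2 (dvd_mul_right N q)
  have hlow : Pl ≤ u := by
    by_contra hcon
    push Not at hcon
    apply hSF (a := (k : ZMod n) * s)
    · refine Finset.mem_add.2 ⟨(k : ZMod n) * s + ((0 : ℕ) : ZMod n), mem_seg.2 ⟨0, by omega, rfl⟩, 0,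
        mem_fs.2 H.zero_mem, by simp⟩
    · refine Finset.mem_add.2 ⟨(l : ZMod n) * s + ((u : ℕ) : ZMod n), mem_seg.2 ⟨u, hcon, rfl⟩,
        ((N * (v / N) : ℕ) : ZMod n), mem_fs.2 (hmemH _), ?_⟩
      have h1 : ((N * (v / N) : ℕ) : ZMod n) + (u : ZMod n) = ((k : ZMod n) - (l : ZMod n)) * s := by
        rw [← hv', ← Nat.cast_add, ← hvu]
      linear_combination h1
  have hhigh : u + Pk ≤ N := by
    by_contra hcon
    push Not at hcon
    apply hSF (a := (k : ZMod n) * s + ((N - u : ℕ) : ZMod n))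
    · refine Finset.mem_add.2 ⟨(k : ZMod n) * s + ((N - u : ℕ) : ZMod n), mem_seg.2 ⟨N - u, by omega, rfl⟩, 0,
        mem_fs.2 H.zero_mem, by simp⟩
    · refine Finset.mem_add.2 ⟨(l : ZMod n) * s + ((0 : ℕ) : ZMod n), mem_seg.2 ⟨0, by omega, rfl⟩,
        ((N * (v / N + 1) : ℕ) : ZMod n), mem_fs.2 (hmemH _), ?_⟩
      have h1 : ((N * (v / N + 1) : ℕ) : ZMod n) = (v : ZMod n) + ((N - u : ℕ) : ZMod n) := by
        rw [← Nat.cast_add]
        congr 1
        have : N * (v / N + 1) = N * (v / N) + N := by ring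
        omega
      rw [h1, hv']
      push_cast
      ring
  -- divisibility
  have hgu : Nat.gcd N (k - l) ∣ u := by
    have h1 : Nat.gcd N (k - l) ∣ n := (Nat.gcd_dvd_left _ _).trans ⟨h, by rw [mul_comm]; exact hN⟩
    have h2 : Nat.gcd N (k - l) ∣ v := by
      have h3 : v = ((k - l) * s.val) % n := by
        rw [hv]
        have h4 : ((k : ZMod n) - (l : ZMod n)) * s = (((k - l) * s.val : ℕ) : ZMod n) := by
          push_cast [hlk.le]
          rw [ZMod.natCast_zmod_val]
        rw [h4, ZMod.val_natCast]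
      rw [h3]
      exact (Nat.dvd_mod_iff h1).2 (Dvd.dvd.mul_right (Nat.gcd_dvd_right _ _) _)
    exact (Nat.dvd_mod_iff (Nat.gcd_dvd_left _ _)).2 h2
  have hdU : Nat.gcd n (k - l) ∣ h * u := by
    have h1 : Nat.gcd n (k - l) ∣ h * Nat.gcd N (k - l) := by
      rw [← Nat.gcd_mul_left, ← hN]
      exact Nat.gcd_dvd_gcd_mul_left_right _ _ _
    exact h1.trans (Nat.mul_dvd_mul_left h hgu)
  -- conclusion
  have hk' : (1 : ℤ) ≤ (k : ℤ) - 1 := by
    have : 2 ≤ k := by omega
    have : (2 : ℤ) ≤ k := by exact_mod_cast this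
    linarith
  have hl' : (0 : ℤ) ≤ (l : ℤ) - 1 := by
    have : (1 : ℤ) ≤ l := by exact_mod_cast hl
    linarith
  have hc' : (0 : ℤ) ≤ (c : ℤ) - 2 := by
    have : (2 : ℤ) ≤ c := by exact_mod_cast hc
    linarith
  have hh' : (1 : ℤ) ≤ h := by exact_mod_cast hh
  have hk0 : (0 : ℤ) ≤ k := by positivity
  have hl0 : (0 : ℤ) ≤ l := by positivity
  have h5 : ((seg s t + fs H).card : ℤ) ≤ t * h := by exact_mod_cast hcard
  have h6 : (Pl : ℤ) ≤ u := by exact_mod_cast hlow
  have h7 : (u : ℤ) + Pk ≤ N := by exact_mod_cast hhigh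
  have h8 : (n : ℤ) = h * N := by exact_mod_cast hN
  refine (le_bigL_iff hl hlk _).2 ⟨((h * u : ℕ) : ℤ), ?_, ?_, ?_⟩
  · exact_mod_cast hdU
  · push_cast
    have h9 : (h : ℤ) * Pl ≤ h * u := mul_le_mul_of_nonneg_left h6 (by linarith)
    rw [hPl] at h9
    have h10 : (l : ℤ) * ((seg s t + fs H).card : ℤ) ≤ l * (t * h) := mul_le_mul_of_nonneg_left h5 hl0
    have h11 : ((l : ℤ) - 1) * ((c : ℤ) - 2) * 1 ≤ ((l : ℤ) - 1) * ((c : ℤ) - 2) * h :=
      mul_le_mul_of_nonneg_left hh' (mul_nonneg hl' hc')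
    have h12 : (h : ℤ) * ((l : ℤ) * t + ((l : ℤ) - 1) * ((c : ℤ) - 2)) =
        l * (t * h) + ((l : ℤ) - 1) * ((c : ℤ) - 2) * h := by ring
    linarith
  · push_cast
    have h9 : (h : ℤ) * (u + Pk) ≤ h * N := mul_le_mul_of_nonneg_left h7 (by linarith)
    rw [hPk, ← h8] at h9
    have h10 : (k : ℤ) * ((seg s t + fs H).card : ℤ) ≤ k * (t * h) := mul_le_mul_of_nonneg_left h5 hk0
    have h11 : ((k : ℤ) - 1) * ((c : ℤ) - 2) * 1 ≤ ((k : ℤ) - 1) * ((c : ℤ) - 2) * h :=
      mul_le_mul_of_nonneg_left hh' (mul_nonneg (by linarith) hc')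
    have h12 : (h : ℤ) * ((u : ℤ) + ((k : ℤ) * t + ((k : ℤ) - 1) * ((c : ℤ) - 2))) =
        h * u + (k * (t * h) + ((k : ℤ) - 1) * ((c : ℤ) - 2) * h) := by ring
    linarith

/-- the upper bound -/
theorem upper {k l c : ℕ} (hl : 1 ≤ l) (hlk : l < k) (hc : 2 ≤ c) (A : Finset (ZMod n))
    (hA : SF k l A (seg 0 c)) (hne : A.Nonempty) : (A.card : ℤ) ≤ bigL n k l c := by
  classical
  -- pass to a largest set
  obtain ⟨M, hMmem, hMmax⟩ := Finset.exists_max_image
    ((univ : Finset (Finset (ZMod n))).filter (fun X => SF k l X (seg 0 c))) Finset.card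
    ⟨A, Finset.mem_filter.2 ⟨Finset.mem_univ _, hA⟩⟩
  have hM := (Finset.mem_filter.1 hMmem).2
  have hmax : ∀ A', SF k l A' (seg 0 c) → A'.card ≤ M.card := fun A' hA' =>
    hMmax A' (Finset.mem_filter.2 ⟨Finset.mem_univ _, hA'⟩)
  have hAM : A.card ≤ M.card := hmax A hA
  have hMne : M.Nonempty := by
    rw [← Finset.card_pos]
    exact lt_of_lt_of_le (Finset.card_pos.2 hne) hAM
  suffices h : (M.card : ℤ) ≤ bigL n k l c by
    have : (A.card : ℤ) ≤ M.card := by exact_mod_cast hAM
    linarith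
  set H := stab M with hH
  have hCne : (seg (0 : ZMod n) c).Nonempty := seg_nonempty (by omega)
  have hineq := main_ineq (by omega) hl hM hmax hMne hCne
  rw [ZMod.card, ← hH] at hineq
  -- `M + C` is not everything
  have hnotuniv : M + seg 0 c ≠ univ := by
    intro hu
    have h1 : star M (seg 0 c) k = univ := by
      rw [star_eq _ _ (by omega)]
      obtain ⟨j, hj⟩ : ∃ j, k - 1 = j + 1 := ⟨k - 2, by omega⟩
      rw [hj, nf_succ, hu, ← add_assoc]
      apply Finset.eq_univ_of_forall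
      intro x
      obtain ⟨y, hy⟩ := hMne.add (nf_nonempty (A := (univ : Finset (ZMod n))) Finset.univ_nonempty j)
      exact Finset.mem_add.2 ⟨y, hy, x - y, Finset.mem_univ _, by ring⟩
    have h2 : (star M (seg 0 c) l).Nonempty := by
      unfold star
      exact (nf_nonempty hMne l).add (nf_nonempty hCne _)
    obtain ⟨x, hx⟩ := h2
    have hM' : Disjoint (star M (seg 0 c) k) (star M (seg 0 c) l) := hM
    rw [Finset.disjoint_left] at hM'
    exact hM' (by rw [h1]; exact Finset.mem_univ x) hx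
  have hMuniv : M ≠ univ := by
    intro h
    apply hnotuniv
    rw [h]
    apply Finset.eq_univ_of_forall
    intro x
    exact Finset.mem_add.2 ⟨x, Finset.mem_univ _, 0, mem_seg.2 ⟨0, by omega, by simp⟩, by ring⟩
  by_cases hsmall : (M + seg 0 2).card < M.card + 2 * (fs H).card
  · obtain ⟨s, t, ht, hMst⟩ := interval_of_small M H le_rfl hMne hMuniv hsmall
    rw [hMst]
    apply periodic_interval_bound hl hlk hc H s t ht
    rw [← hMst]
    exact hM
  · push Not at hsmall
    have h1 := growth_many M H le_rfl hMne c 2 (by omega) hc hnotuniv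
    have hh : 1 ≤ (fs H).card := fs_card_pos H
    apply le_bigL_of hl hlk
    set h := (fs H).card with hhdef
    have h2 : M.card + c * h ≤ (M + seg 0 c).card := by
      have h3 : (c - 2) * h + 2 * h = c * h := by
        rw [← add_mul]
        congr 1
        omega
      omega
    have hk' : ((k - 1 : ℕ) : ℤ) = (k : ℤ) - 1 := by
      have : 1 ≤ k := by omega
      push_cast [this]
      ring
    have hl' : ((l - 1 : ℕ) : ℤ) = (l : ℤ) - 1 := by push_cast [hl]; ring
    have h4 : (2 : ℤ) * M.card + ((k : ℤ) - 1) * (M + seg 0 c).card + ((l : ℤ) - 1) * (M + seg 0 c).card ≤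
        n + ((k : ℤ) - 1) * h + ((l : ℤ) - 1) * h := by
      rw [← hk', ← hl']
      exact_mod_cast hineq
    have h5 : (M.card : ℤ) + c * h ≤ ((M + seg 0 c).card : ℤ) := by exact_mod_cast h2
    have h6 : (1 : ℤ) ≤ h := by exact_mod_cast hh
    have h7 : (2 : ℤ) ≤ c := by exact_mod_cast hc
    have h8 : (1 : ℤ) ≤ l := by exact_mod_cast hl
    have h9 : (l : ℤ) < k := by exact_mod_cast hlk
    have h10 : ((k : ℤ) + l - 2) * ((M.card : ℤ) + c * h) ≤ ((k : ℤ) + l - 2) * ((M + seg 0 c).card : ℤ) :=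
      mul_le_mul_of_nonneg_left h5 (by linarith)
    have h11 : ((k : ℤ) + l - 2) * (((c : ℤ) - 1) * 1) ≤ ((k : ℤ) + l - 2) * (((c : ℤ) - 1) * h) :=
      mul_le_mul_of_nonneg_left (mul_le_mul_of_nonneg_left h6 (by linarith)) (by linarith)
    nlinarith

end Pool.Agent.Q153.Noise
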